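import Mathlib

set_option autoImplicit false

/-!
Minimum step of a shift of finite type versus the size of a deterministic presentation:
the exponential upper bound is tight.
-/

namespace Pool.Agent.Results.MP_bb9d96_lc.Tight

open Filter

/-- The set `X_F` of bi-infinite sequences all of whose windows of length `m` avoid the
set `F` of forbidden words of length `m`. -/
def avoid {A : Type} {m : ℕ} (F : Set (Fin m → A)) : Set (ℤ → A) :=
  {x | ∀ i : ℤ, (fun j : Fin m => x (i + (j : ℕ))) ∉ F}

/-- `X` is `M`-step: `X = X_F` for a set `F` of words all of length `M + 1`. -/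
def IsStep {A : Type} (X : Set (ℤ → A)) (M : ℕ) : Prop :=
  ∃ F : Set (Fin (M + 1) → A), X = avoid F

/-- `X` is a shift of finite type: it is `M`-step for some `M`. -/
def IsSFT {A : Type} (X : Set (ℤ → A)) : Prop := ∃ M, IsStep X M

/-- The minimum step: the least `M` such that `X` is `M`-step. -/
noncomputable def minStep {A : Type} (X : Set (ℤ → A)) : ℕ := sInf {M | IsStep X M}

/-- A presentation: a finite directed graph (multiple edges allowed) with vertex set `V` and
edge set `E`, whose edges carry labels in `A`. -/
structure Presentation (A : Type) where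
  /-- vertices -/
  V : Type
  /-- edges -/
  E : Type
  /-- there are finitely many vertices -/
  finV : Finite V
  /-- there are finitely many edges -/
  finE : Finite E
  /-- source of an edge -/
  src : E → V
  /-- target of an edge -/
  tgt : E → V
  /-- label of an edge -/
  lab : E → A

/-- The shift space `X_G` presented by `G`: the label sequences of bi-infinite walks. -/
def Presentation.shift {A : Type} (G : Presentation A) : Set (ℤ → A) :=
  {x | ∃ w : ℤ → G.E, (∀ i, G.tgt (w i) = G.src (w (i + 1))) ∧ ∀ i, G.lab (w i) = x i}

/-- `G` is deterministic: at every vertex and for every symbol `a`, at most one outgoing edge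
is labelled `a`. -/
def Presentation.Deterministic {A : Type} (G : Presentation A) : Prop :=
  ∀ e e' : G.E, G.src e = G.src e' → G.lab e = G.lab e' → e = e'

/-- `s_d(X)`: the least number of vertices of a deterministic presentation of `X`. -/
noncomputable def sd {A : Type} (X : Set (ℤ → A)) : ℕ :=
  sInf {n | ∃ G : Presentation A, G.Deterministic ∧ G.shift = X ∧ Nat.card G.V = n}

/-! ### The counter -/

/-- The alphabet: a left marker, a right marker, and `k` increment letters. -/
inductive Sym (k : ℕ) : Type
  | L : Sym k
  | R : Sym k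
  | inc (a : Fin k) : Sym k

/-- The states. -/
inductive St (k : ℕ) : Type
  | q (i : Fin k) : St k
  | b (i : Fin k) (y : Bool) : St k
  | err : St k
  | fin : St k

/-- How bit `i` with value `y` reacts to the letter `inc a` (`none` is an error). -/
def bitStep {k : ℕ} (i a : Fin k) (y : Bool) : Option Bool :=
  if a < i then some y
  else if a = i then (if y then none else some true)
  else (if y then some false else none)

/-- The transition function of the presentation. -/
def step {k : ℕ} : St k → Sym k → Option (St k)
  | St.q i, Sym.L => some (St.q i)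
  | St.q i, Sym.inc a => match bitStep i a false with
      | some y => some (St.b i y)
      | none => some St.err
  | St.q _, Sym.R => none
  | St.b i x, Sym.inc a => match bitStep i a x with
      | some y => some (St.b i y)
      | none => some St.err
  | St.b _ _, Sym.L => none
  | St.b _ _, Sym.R => none
  | St.err, Sym.inc _ => some St.err
  | St.err, Sym.R => some St.fin
  | St.err, Sym.L => none
  | St.fin, Sym.R => some St.fin
  | St.fin, Sym.L => none
  | St.fin, Sym.inc _ => none

/-- The shift. -/
def X (k : ℕ) : Set (ℤ → Sym k) :=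
  {x | ∃ s : ℤ → St k, ∀ t, step (s t) (x t) = some (s (t + 1))}

/-- Follow bit `i` along the word `u`, starting from `0` (`none` once an error occurred). -/
def trk {k : ℕ} (u : ℕ → Sym k) (i : Fin k) : ℕ → Option Bool
  | 0 => some false
  | n + 1 => match trk u i n, u n with
      | some y, Sym.inc a => bitStep i a y
      | _, _ => none

theorem trk_succ_none {k : ℕ} (u : ℕ → Sym k) (i : Fin k) (n : ℕ) (h : trk u i n = none) :
    trk u i (n + 1) = none := by
  simp [trk, h]

theorem trk_succ_inc {k : ℕ} (u : ℕ → Sym k) (i : Fin k) (n : ℕ) (y : Bool) (a : Fin k)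
    (h : trk u i n = some y) (ha : u n = Sym.inc a) :
    trk u i (n + 1) = bitStep i a y := by
  simp [trk, h, ha]

theorem trk_succ_some {k : ℕ} (u : ℕ → Sym k) (i : Fin k) (n : ℕ) (z : Bool)
    (h : trk u i (n + 1) = some z) :
    ∃ y a, trk u i n = some y ∧ u n = Sym.inc a ∧ bitStep i a y = some z := by
  rcases hy : trk u i n with _ | y
  · rw [trk_succ_none u i n hy] at h; cases h
  · rcases hu : u n with _ | _ | a
    · simp [trk, hy, hu] at h
    · simp [trk, hy, hu] at h
    · refine ⟨y, a, rfl, rfl, ?_⟩
      rw [trk_succ_inc u i n y a hy hu] at h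
      exact h

theorem trk_congr {k : ℕ} (u v : ℕ → Sym k) (i : Fin k) (n : ℕ) (h : ∀ j < n, u j = v j) :
    trk u i n = trk v i n := by
  induction n with
  | zero => rfl
  | succ n ih =>
    have h1 := ih (fun j hj => h j (by omega))
    have h2 := h n (by omega)
    simp only [trk, h1, h2]

theorem trk_mono_none {k : ℕ} (u : ℕ → Sym k) (i : Fin k) (m n : ℕ) (hmn : m ≤ n)
    (h : trk u i m = none) : trk u i n = none := by
  induction n, hmn using Nat.le_induction with
  | base => exact h
  | succ n _ ih => exact trk_succ_none u i n ih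

/-- The value of a bit vector. -/
def val {k : ℕ} (x : Fin k → Bool) : ℕ := ∑ i : Fin k, if x i then 2 ^ (i : ℕ) else 0

theorem sum_pow_lt {k : ℕ} (a : Fin k) :
    (∑ i : Fin k, if i < a then 2 ^ (i : ℕ) else 0) + 1 = 2 ^ (a : ℕ) := by
  have h1 : (∑ i : Fin k, if i < a then 2 ^ (i : ℕ) else 0)
      = ∑ i ∈ Finset.range k, if i < (a : ℕ) then 2 ^ i else 0 := by
    rw [Finset.sum_range]
    rfl
  rw [h1, ← Finset.sum_filter]
  have h2 : (Finset.range k).filter (fun i => i < (a : ℕ)) = Finset.range (a : ℕ) := by
    ext j
    simp only [Finset.mem_filter, Finset.mem_range]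
    have := a.2
    omega
  rw [h2, Nat.geomSum_eq (le_refl 2)]
  have : 0 < 2 ^ (a : ℕ) := by positivity
  simp
  omega

theorem val_lt {k : ℕ} (x : Fin k → Bool) : val x + 1 ≤ 2 ^ k := by
  have h : val x ≤ ∑ i : Fin k, 2 ^ (i : ℕ) := by
    unfold val
    apply Finset.sum_le_sum
    intro i _
    split_ifs
    · exact le_refl _
    · exact Nat.zero_le _
  have h2 : (∑ i : Fin k, 2 ^ (i : ℕ)) = 2 ^ k - 1 := by
    rw [← Finset.sum_range (fun i => 2 ^ i), Nat.geomSum_eq (le_refl 2)]
    simp
  have h3 : 0 < 2 ^ k := by positivity
  omega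

theorem val_all_true {k : ℕ} (x : Fin k → Bool) (hx : ∀ i, x i = true) : val x + 1 = 2 ^ k := by
  have h2 : (∑ i : Fin k, 2 ^ (i : ℕ)) = 2 ^ k - 1 := by
    rw [← Finset.sum_range (fun i => 2 ^ i), Nat.geomSum_eq (le_refl 2)]
    simp
  have h3 : 0 < 2 ^ k := by positivity
  have : val x = ∑ i : Fin k, 2 ^ (i : ℕ) := by
    unfold val
    apply Finset.sum_congr rfl
    intro i _
    simp [hx i]
  omega

/-- A valid step increases the value by one. -/
theorem val_step {k : ℕ} (x y : Fin k → Bool) (a : Fin k)
    (h : ∀ i, bitStep i a (x i) = some (y i)) : val y = val x + 1 := by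
  have key : ∀ i : Fin k, (if y i then 2 ^ (i : ℕ) else 0) + (if i < a then 2 ^ (i : ℕ) else 0)
      = (if x i then 2 ^ (i : ℕ) else 0) + (if i = a then 2 ^ (i : ℕ) else 0) := by
    intro i
    have hi := h i
    unfold bitStep at hi
    rcases lt_trichotomy a i with hlt | heq | hgt
    · simp only [hlt, if_true] at hi
      have h1 : ¬ i < a := not_lt.mpr hlt.le
      have h2 : i ≠ a := ne_of_gt hlt
      simp only [Option.some.injEq] at hi
      simp [h1, h2, hi]
    · subst heq
      rcases hx : x a with _ | _
      · simp [hx] at hi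
        simp [← hi]
      · simp [hx] at hi
    · have h1 : ¬ a < i := not_lt.mpr hgt.le
      have h2 : a ≠ i := ne_of_gt hgt
      have h3 : i ≠ a := ne_of_lt hgt
      rcases hx : x i with _ | _
      · simp [hx, h1, h2] at hi
      · simp [hx, h1, h2] at hi
        simp [← hi, hgt, h3]
  have hs : (∑ i : Fin k, ((if y i then 2 ^ (i : ℕ) else 0) + (if i < a then 2 ^ (i : ℕ) else 0)))
      = ∑ i : Fin k, ((if x i then 2 ^ (i : ℕ) else 0) + (if i = a then 2 ^ (i : ℕ) else 0)) :=
    Finset.sum_congr rfl (fun i _ => key i)
  rw [Finset.sum_add_distrib, Finset.sum_add_distrib] at hs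
  have h2 : (∑ i : Fin k, if i = a then 2 ^ (i : ℕ) else 0) = 2 ^ (a : ℕ) := by
    simp
  have h3 := sum_pow_lt a
  unfold val
  omega

/-- Words with no error on any bit are short. -/
theorem valid_short {k : ℕ} (hk : 0 < k) (u : ℕ → Sym k) (n : ℕ)
    (h : ∀ i, trk u i n ≠ none) : n + 1 ≤ 2 ^ k := by
  have key : ∀ m ≤ n, val (fun i => (trk u i m).getD false) = m := by
    intro m
    induction m with
    | zero =>
      intro _
      simp [val, trk]
    | succ m ih =>
      intro hm
      have ihm := ih (by omega)
      have hne : ∀ i, ∃ z, trk u i (m + 1) = some z := by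
        intro i
        rcases hz : trk u i (m + 1) with _ | z
        · exact absurd (trk_mono_none u i (m + 1) n hm hz) (h i)
        · exact ⟨z, rfl⟩
      obtain ⟨z0, hz0⟩ := hne ⟨0, hk⟩
      obtain ⟨y0, a, _, hua, _⟩ := trk_succ_some u ⟨0, hk⟩ m z0 hz0
      have hstep : ∀ i, bitStep i a ((trk u i m).getD false)
          = some ((trk u i (m + 1)).getD false) := by
        intro i
        obtain ⟨z, hz⟩ := hne i
        obtain ⟨y, a', hy, hua', hb⟩ := trk_succ_some u i m z hz
        have : a' = a := by
          rw [hua] at hua'
          injection hua' with h'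
          exact h'.symm
        subst this
        rw [hy, hz]
        exact hb
      have := val_step _ _ a hstep
      rw [this, ihm]
  have h1 := key n le_rfl
  have h2 := val_lt (fun i => (trk u i n).getD false)
  omega

/-- The next letter: the lowest bit that is `0` (when there is one). -/
theorem exists_next {k : ℕ} (x : Fin k → Bool) (hx : val x + 1 < 2 ^ k) :
    ∃ a : Fin k, ∃ y : Fin k → Bool, ∀ i, bitStep i a (x i) = some (y i) := by
  have hex : ∃ i, x i = false := by
    by_contra hcon
    push Not at hcon
    have : ∀ i, x i = true := by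
      intro i
      have := hcon i
      simpa using this
    have := val_all_true x this
    omega
  classical
  have hne : (Finset.univ.filter (fun i : Fin k => x i = false)).Nonempty := by
    obtain ⟨i, hi⟩ := hex
    exact ⟨i, by simp [hi]⟩
  let a := (Finset.univ.filter (fun i : Fin k => x i = false)).min' hne
  have ha : x a = false := by
    have := Finset.min'_mem _ hne
    simp only [Finset.mem_filter, Finset.mem_univ, true_and] at this
    exact this
  have hlt : ∀ i, i < a → x i = true := by
    intro i hi
    by_contra hcon
    have hi' : x i = false := by simpa using hcon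
    have := Finset.min'_le (Finset.univ.filter (fun i : Fin k => x i = false)) i (by simp [hi'])
    exact absurd hi (not_lt.mpr this)
  refine ⟨a, fun i => (bitStep i a (x i)).getD false, ?_⟩
  intro i
  unfold bitStep
  rcases lt_trichotomy a i with h | h | h
  · simp [h]
  · subst h
    simp [ha]
  · have h1 : ¬ a < i := not_lt.mpr h.le
    have h2 : a ≠ i := ne_of_gt h
    simp [h1, h2, hlt i h]

/-- There is a long word with no error on any bit. -/
theorem exists_long {k : ℕ} (hk : 0 < k) :
    ∃ u : ℕ → Sym k, (∀ n, ∃ a, u n = Sym.inc a) ∧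
      ∀ n, n + 1 ≤ 2 ^ k → ∀ i, trk u i n ≠ none := by
  classical
  -- configurations
  let a : (Fin k → Bool) → Fin k := fun x =>
    if h : val x + 1 < 2 ^ k then (exists_next x h).choose else ⟨0, hk⟩
  let nx : (Fin k → Bool) → (Fin k → Bool) := fun x => fun i => (bitStep i (a x) (x i)).getD false
  let c : ℕ → (Fin k → Bool) := fun n => nx^[n] (fun _ => false)
  have hstep : ∀ x : Fin k → Bool, val x + 1 < 2 ^ k →
      ∀ i, bitStep i (a x) (x i) = some (nx x i) := by
    intro x hx i
    obtain ⟨y, hy⟩ := (exists_next x hx).choose_spec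
    have ha : a x = (exists_next x hx).choose := by simp [a, hx]
    have hi := hy i
    rw [← ha] at hi
    simp only [nx, hi, Option.getD_some]
  refine ⟨fun n => Sym.inc (a (c n)), fun n => ⟨_, rfl⟩, ?_⟩
  have key : ∀ n, n + 1 ≤ 2 ^ k → val (c n) = n ∧
      ∀ i, trk (fun n => Sym.inc (a (c n))) i n = some (c n i) := by
    intro n
    induction n with
    | zero =>
      intro _
      refine ⟨?_, ?_⟩
      · simp [c, val]
      · intro i
        simp [c, trk]
    | succ n ih =>
      intro hn
      obtain ⟨h1, h2⟩ := ih (by omega)
      have hv : val (c n) + 1 < 2 ^ k := by omega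
      have hc : c (n + 1) = nx (c n) := by
        simp only [c, Function.iterate_succ', Function.comp]
      have hs := hstep (c n) hv
      refine ⟨?_, ?_⟩
      · rw [hc, val_step (c n) (nx (c n)) (a (c n)) hs, h1]
      · intro i
        rw [trk_succ_inc _ i n (c n i) (a (c n)) (h2 i) rfl, hs i, hc]
  intro n hn i
  rw [(key n hn).2 i]
  simp

/-! ### Membership in `X k` -/

/-- A run of `X k` over `L w R` sees an error on some bit. -/
theorem run_error {k : ℕ} (x : ℤ → Sym k) (hx : x ∈ X k) (p : ℤ) (n : ℕ)
    (hL : x (p - 1) = Sym.L) (hR : x (p + n) = Sym.R)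
    (hinc : ∀ j : ℕ, j < n → ∃ a, x (p + j) = Sym.inc a) :
    ∃ i, trk (fun j : ℕ => x (p + j)) i n = none := by
  obtain ⟨s, hs⟩ := hx
  have h0 := hs (p - 1)
  rw [hL, sub_add_cancel] at h0
  have hq : ∃ i, s p = St.q i := by
    rcases hsp : s (p - 1) with i | ⟨i, y⟩ | _ | _
    · rw [hsp] at h0
      simp only [step, Option.some.injEq] at h0
      exact ⟨i, h0.symm⟩
    all_goals (rw [hsp] at h0; simp [step] at h0)
  obtain ⟨i, hi⟩ := hq
  refine ⟨i, ?_⟩
  have key : ∀ m : ℕ, m ≤ n → (trk (fun j : ℕ => x (p + j)) i m = none ∨
      ∃ y, trk (fun j : ℕ => x (p + j)) i m = some y ∧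
        (s (p + m) = St.b i y ∨ (s (p + m) = St.q i ∧ y = false))) := by
    intro m
    induction m with
    | zero =>
      intro _
      right
      exact ⟨false, rfl, Or.inr ⟨by simpa using hi, rfl⟩⟩
    | succ m ih =>
      intro hm
      rcases ih (by omega) with h | ⟨y, hy, hst⟩
      · left
        exact trk_succ_none _ i m h
      · obtain ⟨a, ha⟩ := hinc m (by omega)
        have hss := hs (p + m)
        rw [ha] at hss
        have htr := trk_succ_inc (fun j : ℕ => x (p + j)) i m y a hy ha
        have hcast : p + ((m + 1 : ℕ) : ℤ) = p + m + 1 := by push_cast; ring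
        rcases hb : bitStep i a y with _ | z
        · left
          rw [htr, hb]
        · right
          refine ⟨z, by rw [htr, hb], Or.inl ?_⟩
          rw [hcast]
          rcases hst with hst | ⟨hst, hy0⟩
          · rw [hst] at hss
            simp only [step, hb, Option.some.injEq] at hss
            exact hss.symm
          · rw [hst] at hss
            subst hy0
            simp only [step, hb, Option.some.injEq] at hss
            exact hss.symm
  rcases key n le_rfl with h | ⟨y, _, hst⟩
  · exact h
  · exfalso
    have hss := hs (p + n)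
    rw [hR] at hss
    rcases hst with hst | ⟨hst, _⟩
    · rw [hst] at hss
      simp [step] at hss
    · rw [hst] at hss
      simp [step] at hss

/-- Adjacency facts for points of `X k`. -/
theorem adj {k : ℕ} (x : ℤ → Sym k) (hx : x ∈ X k) (t : ℤ) :
    (x (t + 1) = Sym.L → x t = Sym.L) ∧ (x t = Sym.R → x (t + 1) = Sym.R) ∧
      ¬ (x t = Sym.L ∧ x (t + 1) = Sym.R) := by
  obtain ⟨s, hs⟩ := hx
  have h1 := hs t
  have h2 := hs (t + 1)
  refine ⟨?_, ?_, ?_⟩
  · intro h
    rw [h] at h2
    rcases h3 : s (t + 1) with i | ⟨i, y⟩ | _ | _
    · rw [h3] at h1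
      rcases h4 : s t with i' | ⟨i', y'⟩ | _ | _
      · rcases h5 : x t with _ | _ | a
        · rfl
        · rw [h4, h5] at h1; simp [step] at h1
        · rw [h4, h5] at h1
          simp only [step] at h1
          split at h1 <;> simp at h1
      · rcases h5 : x t with _ | _ | a
        · rfl
        · rw [h4, h5] at h1; simp [step] at h1
        · rw [h4, h5] at h1
          simp only [step] at h1
          split at h1 <;> simp at h1
      · rcases h5 : x t with _ | _ | a
        · rfl
        · rw [h4, h5] at h1; simp [step] at h1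
        · rw [h4, h5] at h1; simp [step] at h1
      · rcases h5 : x t with _ | _ | a
        · rfl
        · rw [h4, h5] at h1; simp [step] at h1
        · rw [h4, h5] at h1; simp [step] at h1
    all_goals (rw [h3] at h2; simp [step] at h2)
  · intro h
    rw [h] at h1
    have h3 : s (t + 1) = St.fin := by
      rcases h4 : s t with i' | ⟨i', y'⟩ | _ | _
      all_goals (rw [h4] at h1; simp [step] at h1)
      all_goals exact h1.symm
    rw [h3] at h2
    rcases h5 : x (t + 1) with _ | _ | a
    · rw [h5] at h2; simp [step] at h2
    · rfl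
    · rw [h5] at h2; simp [step] at h2
  · rintro ⟨hL, hR⟩
    rw [hL] at h1
    rw [hR] at h2
    rcases h4 : s t with i' | ⟨i', y'⟩ | _ | _
    · rw [h4] at h1
      simp only [step, Option.some.injEq] at h1
      rw [← h1] at h2
      simp [step] at h2
    all_goals (rw [h4] at h1; simp [step] at h1)

/-- Sequences of increment letters followed by right markers are in `X k`. -/
theorem mem_noL {k : ℕ} (x : ℤ → Sym k) (hL : ∀ t, x t ≠ Sym.L)
    (hR : ∀ t, x t = Sym.R → x (t + 1) = Sym.R) : x ∈ X k := by
  classical
  refine ⟨fun t => if x (t - 1) = Sym.R then St.fin else St.err, ?_⟩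
  intro t
  rcases h : x t with _ | _ | a
  · exact absurd h (hL t)
  · simp only [add_sub_cancel_right, h, if_true]
    split_ifs <;> simp [step]
  · have h2 : x (t - 1) ≠ Sym.R := by
      intro hcon
      have := hR (t - 1) hcon
      rw [sub_add_cancel, h] at this
      cases this
    simp [h, h2, step]

/-- Points of the form `L^∞ w ...` with an error of bit `i` before the first `R` (if any)
are in `X k`. -/
theorem mem_L {k : ℕ} (x : ℤ → Sym k) (p : ℤ) (i : Fin k)
    (hL : ∀ t < p, x t = Sym.L) (hnL : ∀ t, p ≤ t → x t ≠ Sym.L)
    (hR : ∀ t, p ≤ t → x t = Sym.R → x (t + 1) = Sym.R)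
    (herr : ∀ n : ℕ, x (p + n) = Sym.R → (∀ m < n, x (p + m) ≠ Sym.R) →
      trk (fun j : ℕ => x (p + j)) i n = none) : x ∈ X k := by
  classical
  -- states after position `p`, indexed by naturals
  let r : ℕ → St k := fun n => Nat.rec (St.q i) (fun m st => (step st (x (p + m))).getD St.err) n
  have hr0 : r 0 = St.q i := rfl
  have hrs : ∀ n, r (n + 1) = (step (r n) (x (p + n))).getD St.err := fun n => rfl
  -- invariant
  have key : ∀ n : ℕ, ((∀ m < n, x (p + m) ≠ Sym.R) ∧
        ((trk (fun j : ℕ => x (p + j)) i n = none ∧ r n = St.err) ∨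
        ∃ y, trk (fun j : ℕ => x (p + j)) i n = some y ∧
          (r n = St.b i y ∨ (r n = St.q i ∧ y = false)))) ∨
      ((∃ m < n, x (p + m) = Sym.R) ∧ r n = St.fin) := by
    intro n
    induction n with
    | zero =>
      left
      refine ⟨fun m hm => absurd hm (Nat.not_lt_zero m), Or.inr ⟨false, rfl, Or.inr ⟨hr0, rfl⟩⟩⟩
    | succ n ih =>
      rcases ih with ⟨hno, ih⟩ | ⟨⟨m, hm, hmR⟩, hfin⟩
      · rcases hxn : x (p + n) with _ | _ | a
        · exact absurd hxn (hnL _ (by omega))
        · right
          refine ⟨⟨n, by omega, hxn⟩, ?_⟩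
          have hn := herr n hxn hno
          rcases ih with ⟨_, hre⟩ | ⟨y, hy, _⟩
          · rw [hrs, hre, hxn]
            rfl
          · rw [hn] at hy; cases hy
        · left
          refine ⟨?_, ?_⟩
          · intro m hm
            rcases Nat.lt_succ_iff_lt_or_eq.mp hm with h | h
            · exact hno m h
            · rw [h, hxn]
              simp
          · rcases ih with ⟨htr, hre⟩ | ⟨y, hy, hst⟩
            · left
              refine ⟨trk_succ_none _ i n htr, ?_⟩
              rw [hrs, hre, hxn]
              rfl
            · have htr := trk_succ_inc (fun j : ℕ => x (p + j)) i n y a hy hxn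
              rcases hb : bitStep i a y with _ | z
              · left
                refine ⟨by rw [htr, hb], ?_⟩
                rcases hst with hst | ⟨hst, hy0⟩
                · rw [hrs, hst, hxn]
                  simp [step, hb]
                · subst hy0
                  rw [hrs, hst, hxn]
                  simp [step, hb]
              · right
                refine ⟨z, by rw [htr, hb], Or.inl ?_⟩
                rcases hst with hst | ⟨hst, hy0⟩
                · rw [hrs, hst, hxn]
                  simp [step, hb]
                · subst hy0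
                  rw [hrs, hst, hxn]
                  simp [step, hb]
      · right
        refine ⟨⟨m, by omega, hmR⟩, ?_⟩
        have hR' : ∀ d : ℕ, x (p + ((m + d : ℕ) : ℤ)) = Sym.R := by
          intro d
          induction d with
          | zero => simpa using hmR
          | succ d ihd =>
            have := hR (p + ((m + d : ℕ) : ℤ)) (by omega) ihd
            have hc : p + ((m + (d + 1) : ℕ) : ℤ) = p + ((m + d : ℕ) : ℤ) + 1 := by
              push_cast; ring
            rw [hc]
            exact this
        have hxn : x (p + n) = Sym.R := by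
          have := hR' (n - m)
          have hc : m + (n - m) = n := by omega
          rw [hc] at this
          exact this
        rw [hrs, hfin, hxn]
        rfl
  have hstep : ∀ n : ℕ, step (r n) (x (p + n)) = some (r (n + 1)) := by
    intro n
    have hne : step (r n) (x (p + n)) ≠ none := by
      rcases hxn : x (p + n) with _ | _ | a
      · exact absurd hxn (hnL _ (by omega))
      · rcases key n with ⟨hno, ih⟩ | ⟨_, hfin⟩
        · have hn := herr n hxn hno
          rcases ih with ⟨_, hre⟩ | ⟨y, hy, _⟩
          · rw [hre]; simp [step]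
          · rw [hn] at hy; cases hy
        · rw [hfin]; simp [step]
      · rcases key n with ⟨hno, ih⟩ | ⟨⟨m, hm, hmR⟩, hfin⟩
        · rcases ih with ⟨_, hre⟩ | ⟨y, hy, hst⟩
          · rw [hre]; simp [step]
          · rcases hst with hst | ⟨hst, _⟩
            · rw [hst]
              simp only [step]
              split <;> simp
            · rw [hst]
              simp only [step]
              split <;> simp
        · exfalso
          have hR' : ∀ d : ℕ, x (p + ((m + d : ℕ) : ℤ)) = Sym.R := by
            intro d
            induction d with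
            | zero => simpa using hmR
            | succ d ihd =>
              have := hR (p + ((m + d : ℕ) : ℤ)) (by omega) ihd
              have hc : p + ((m + (d + 1) : ℕ) : ℤ) = p + ((m + d : ℕ) : ℤ) + 1 := by
                push_cast; ring
              rw [hc]
              exact this
          have := hR' (n - m)
          have hc : m + (n - m) = n := by omega
          rw [hc, hxn] at this
          cases this
    rw [hrs]
    rcases hh : step (r n) (x (p + n)) with _ | z
    · exact absurd hh hne
    · rfl
  refine ⟨fun t => if t < p then St.q i else r (t - p).toNat, ?_⟩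
  intro t
  by_cases ht : t < p
  · have h1 : (if t + 1 < p then St.q i else r (t + 1 - p).toNat) = St.q i := by
      split_ifs with h
      · rfl
      · have : t + 1 - p = 0 := by omega
        rw [this]
        exact hr0
    simp only [ht, if_true, h1, hL t ht, step]
  · have h1 : ¬ (t + 1 < p) := by omega
    have h2 : (t + 1 - p).toNat = (t - p).toNat + 1 := by omega
    have h3 : p + (((t - p).toNat : ℕ) : ℤ) = t := by omega
    have := hstep (t - p).toNat
    rw [h3] at this
    simp only [ht, if_false, h1, h2]
    exact this

/-! ### `X k` is `2 ^ k`-step -/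

/-- If every window of length at least `2` of `x` occurs in `X k`, then the adjacency facts
hold for `x`. -/
theorem X_isStep {k : ℕ} (hk : 0 < k) : IsStep (X k) (2 ^ k) := by
  classical
  refine ⟨{u | ∀ y ∈ X k, ∀ i : ℤ, (fun j : Fin (2 ^ k + 1) => y (i + (j : ℕ))) ≠ u}, ?_⟩
  apply Set.Subset.antisymm
  · intro x hx i hmem
    exact hmem x hx i rfl
  · intro x hx
    have hwin : ∀ i : ℤ, ∃ y ∈ X k, ∃ i' : ℤ, ∀ j : ℕ, j < 2 ^ k + 1 → y (i' + j) = x (i + j) := by
      intro i
      have := hx i
      simp only [Set.mem_ofPred_eq, not_forall, ne_eq, not_not] at this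
      obtain ⟨y, hy, i', he⟩ := this
      refine ⟨y, hy, i', ?_⟩
      intro j hj
      exact congrFun he ⟨j, hj⟩
    have hpow : 2 ≤ 2 ^ k := by
      calc 2 = 2 ^ 1 := by norm_num
        _ ≤ 2 ^ k := Nat.pow_le_pow_right (by norm_num) hk
    have hadj : ∀ t : ℤ, (x (t + 1) = Sym.L → x t = Sym.L) ∧ (x t = Sym.R → x (t + 1) = Sym.R) ∧
        ¬ (x t = Sym.L ∧ x (t + 1) = Sym.R) := by
      intro t
      obtain ⟨y, hy, i', he⟩ := hwin t
      have h0 := he 0 (by omega)
      have h1 := he 1 (by omega)
      simp only [Nat.cast_zero, add_zero, Nat.cast_one] at h0 h1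
      rw [← h0, ← h1]
      exact adj y hy i'
    have hLback : ∀ t : ℤ, x t = Sym.L → ∀ d : ℕ, x (t - d) = Sym.L := by
      intro t ht d
      induction d with
      | zero => simpa using ht
      | succ d ih =>
        have := (hadj (t - ((d + 1 : ℕ) : ℤ))).1
        apply this
        have hc : t - ((d + 1 : ℕ) : ℤ) + 1 = t - d := by push_cast; ring
        rw [hc]
        exact ih
    have hRfwd : ∀ t : ℤ, x t = Sym.R → ∀ d : ℕ, x (t + d) = Sym.R := by
      intro t ht d
      induction d with
      | zero => simpa using ht
      | succ d ih =>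
        have := (hadj (t + d)).2.1 ih
        have hc : t + ((d + 1 : ℕ) : ℤ) = t + d + 1 := by push_cast; ring
        rw [hc]
        exact this
    have hLback' : ∀ t t' : ℤ, x t = Sym.L → t' ≤ t → x t' = Sym.L := by
      intro t t' ht htt
      have := hLback t ht (t - t').toNat
      have hc : t - ((t - t').toNat : ℤ) = t' := by omega
      rw [hc] at this
      exact this
    have hRfwd' : ∀ t t' : ℤ, x t = Sym.R → t ≤ t' → x t' = Sym.R := by
      intro t t' ht htt
      have := hRfwd t ht (t' - t).toNat
      have hc : t + ((t' - t).toNat : ℤ) = t' := by omega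
      rw [hc] at this
      exact this
    by_cases hexL : ∃ t, x t = Sym.L
    · by_cases hallL : ∀ t, x t = Sym.L
      · -- constant `L`
        refine ⟨fun _ => St.q ⟨0, hk⟩, ?_⟩
        intro t
        rw [hallL t]
        rfl
      · push Not at hallL
        obtain ⟨t1, ht1⟩ := hallL
        obtain ⟨t0, ht0⟩ := hexL
        have ht01 : t0 < t1 := by
          by_contra hcon
          exact ht1 (hLback' t0 t1 ht0 (by omega))
        -- first non-`L` position `p`
        have hexn : ∃ n : ℕ, x (t0 + n) ≠ Sym.L := ⟨(t1 - t0).toNat, by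
          have hc : t0 + ((t1 - t0).toNat : ℤ) = t1 := by omega
          rw [hc]; exact ht1⟩
        let n0 := Nat.find hexn
        have hn0 : x (t0 + n0) ≠ Sym.L := Nat.find_spec hexn
        have hn0pos : 0 < n0 := by
          rcases Nat.eq_zero_or_pos n0 with h | h
          · exfalso
            rw [h] at hn0
            apply hn0
            simpa using ht0
          · exact h
        have hmin : x (t0 + ((n0 - 1 : ℕ) : ℤ)) = Sym.L := by
          by_contra hcon
          have := Nat.find_min' hexn hcon
          have h2 : n0 ≤ n0 - 1 := this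
          omega
        set p : ℤ := t0 + n0 with hp
        have hpL : x (p - 1) = Sym.L := by
          have hc : p - 1 = t0 + ((n0 - 1 : ℕ) : ℤ) := by omega
          rw [hc]; exact hmin
        have hLp : ∀ t < p, x t = Sym.L := fun t ht => hLback' (p - 1) t hpL (by omega)
        have hnLp : ∀ t, p ≤ t → x t ≠ Sym.L := by
          intro t ht hcon
          exact hn0 (hLback' t p hcon ht)
        have hRR : ∀ t, p ≤ t → x t = Sym.R → x (t + 1) = Sym.R := fun t _ h => (hadj t).2.1 h
        by_cases hexR : ∃ n : ℕ, x (p + n) = Sym.R
        · -- both markers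
          let n1 := Nat.find hexR
          have hn1 : x (p + n1) = Sym.R := Nat.find_spec hexR
          have hn1min : ∀ m : ℕ, m < n1 → x (p + m) ≠ Sym.R := fun m hm => Nat.find_min hexR hm
          have hincs : ∀ m : ℕ, m < n1 → ∃ a, x (p + m) = Sym.inc a := by
            intro m hm
            rcases hxm : x (p + m) with _ | _ | a
            · exact absurd hxm (hnLp _ (by omega))
            · exact absurd hxm (hn1min m hm)
            · exact ⟨a, rfl⟩
          have herr : ∃ i, trk (fun j : ℕ => x (p + j)) i n1 = none := by
            by_contra hcon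
            push Not at hcon
            have hshort := valid_short hk (fun j : ℕ => x (p + j)) n1 hcon
            obtain ⟨y, hy, i', he⟩ := hwin (p - 1)
            have e0 := he 0 (by omega)
            simp only [Nat.cast_zero, add_zero] at e0
            have e1 : ∀ j : ℕ, j < 2 ^ k → y (i' + 1 + j) = x (p + j) := by
              intro j hj
              have := he (j + 1) (by omega)
              have c1 : i' + ((j + 1 : ℕ) : ℤ) = i' + 1 + j := by push_cast; ring
              have c2 : p - 1 + ((j + 1 : ℕ) : ℤ) = p + j := by push_cast; ring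
              rw [c1, c2] at this
              exact this
            obtain ⟨i, hi⟩ := run_error y hy (i' + 1) n1 (by
                rw [add_sub_cancel_right, e0]; exact hpL) (by
                rw [e1 n1 (by omega)]; exact hn1) (by
                intro j hj
                rw [e1 j (by omega)]
                exact hincs j hj)
            rw [trk_congr _ (fun j : ℕ => x (p + j)) i n1 (fun j hj => e1 j (by omega))] at hi
            exact hcon i hi
          obtain ⟨i, hi⟩ := herr
          refine mem_L x p i hLp hnLp hRR ?_
          intro n hn hnm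
          have : n = n1 := by
            apply le_antisymm
            · by_contra hcon
              exact hnm n1 (by omega) hn1
            · by_contra hcon
              exact hn1min n (by omega) hn
          rw [this]
          exact hi
        · -- no right marker
          refine mem_L x p ⟨0, hk⟩ hLp hnLp hRR ?_
          intro n hn
          exact absurd ⟨n, hn⟩ hexR
    · -- no left marker
      push Not at hexL
      exact mem_noL x hexL (fun t h => (hadj t).2.1 h)

/-! ### `X k` is not `M`-step for `M < 2 ^ k` -/

/-- The point `L^∞ u_0 ... u_{n-1} R^∞`. -/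
def pt {k : ℕ} (u : ℕ → Sym k) (n : ℕ) : ℤ → Sym k := fun t =>
  if t < 0 then Sym.L else if t < n then u t.toNat else Sym.R

theorem pt_neg {k : ℕ} (u : ℕ → Sym k) (n : ℕ) (t : ℤ) (h : t < 0) : pt u n t = Sym.L := by
  simp [pt, h]

theorem pt_mid {k : ℕ} (u : ℕ → Sym k) (n : ℕ) (j : ℕ) (h : j < n) : pt u n j = u j := by
  have h1 : ¬ ((j : ℤ) < 0) := by omega
  have h2 : (j : ℤ) < n := by exact_mod_cast h
  simp [pt, h]

theorem pt_right {k : ℕ} (u : ℕ → Sym k) (n : ℕ) (t : ℤ) (h : (n : ℤ) ≤ t) :
    pt u n t = Sym.R := by
  have h1 : ¬ (t < 0) := by omega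
  have h2 : ¬ (t < n) := by omega
  simp [pt, h1, h2]

/-- `L^∞ w R^∞` is in `X k` iff `w` has an error on some bit. -/
theorem pt_mem_iff {k : ℕ} (u : ℕ → Sym k) (hu : ∀ n, ∃ a, u n = Sym.inc a) (n : ℕ) :
    pt u n ∈ X k ↔ ∃ i, trk u i n = none := by
  have hc : ∀ i, trk (fun j : ℕ => pt u n (0 + j)) i n = trk u i n := by
    intro i
    apply trk_congr
    intro j hj
    simp only [zero_add]
    exact pt_mid u n j hj
  constructor
  · intro h
    obtain ⟨i, hi⟩ := run_error (pt u n) h 0 n (pt_neg u n _ (by omega))
      (pt_right u n _ (by omega)) (by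
        intro j hj
        obtain ⟨a, ha⟩ := hu j
        refine ⟨a, ?_⟩
        rw [zero_add, pt_mid u n j hj]
        exact ha)
    rw [hc i] at hi
    exact ⟨i, hi⟩
  · rintro ⟨i, hi⟩
    have hmid : ∀ t : ℤ, 0 ≤ t → t < n → ∃ a, pt u n t = Sym.inc a := by
      intro t h0 h1
      obtain ⟨a, ha⟩ := hu t.toNat
      refine ⟨a, ?_⟩
      have e : ((t.toNat : ℕ) : ℤ) = t := by omega
      have := pt_mid u n t.toNat (by omega)
      rw [e] at this
      rw [this]
      exact ha
    refine mem_L (pt u n) 0 i (fun t ht => pt_neg u n t ht) ?_ ?_ ?_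
    · intro t ht hcon
      by_cases h : t < n
      · obtain ⟨a, ha⟩ := hmid t ht h
        rw [ha] at hcon; cases hcon
      · rw [pt_right u n t (by omega)] at hcon; cases hcon
    · intro t ht h
      by_cases h' : t < n
      · obtain ⟨a, ha⟩ := hmid t ht h'
        rw [ha] at h; cases h
      · exact pt_right u n _ (by omega)
    · intro m hm hmin
      have hmn : n ≤ m := by
        by_contra hcon
        obtain ⟨a, ha⟩ := hmid (0 + m) (by omega) (by omega)
        rw [ha] at hm; cases hm
      have hmn' : m = n := by
        apply le_antisymm _ hmn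
        by_contra hcon
        exact hmin n (by omega) (pt_right u n _ (by omega))
      rw [hmn', hc i]
      exact hi

theorem not_isStep {k : ℕ} (hk : 0 < k) (M : ℕ) (hM : IsStep (X k) M) : 2 ^ k ≤ M := by
  by_contra hlt
  push Not at hlt
  obtain ⟨u, hu, hval⟩ := exists_long hk
  have hpow : 0 < 2 ^ k := by positivity
  obtain ⟨N, hN⟩ : ∃ N, N + 1 = 2 ^ k := ⟨2 ^ k - 1, by omega⟩
  obtain ⟨F, hF⟩ := hM
  have hnot : pt u N ∉ X k := by
    rw [pt_mem_iff u hu]
    push Not
    exact hval N (by omega)
  apply hnot
  rw [hF]
  intro i hmem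
  by_cases hi : 0 ≤ i
  · -- the window contains no `L`
    let z : ℤ → Sym k := fun t => if t < 0 then Sym.inc ⟨0, hk⟩ else pt u N t
    have hz : z ∈ X k := by
      apply mem_noL
      · intro t
        by_cases h0 : t < 0
        · simp [z, h0]
        · by_cases h1 : t < N
          · obtain ⟨a, ha⟩ := hu t.toNat
            simp [z, pt, h0, h1, ha]
          · simp [z, pt, h0, h1]
      · intro t ht
        by_cases h0 : t < 0
        · simp [z, h0] at ht
        · have h0' : ¬ (t + 1 < 0) := by omega
          by_cases h1 : t < N
          · obtain ⟨a, ha⟩ := hu t.toNat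
            simp [z, pt, h0, h1, ha] at ht
          · have h1' : ¬ (t + 1 < N) := by omega
            simp [z, pt, h0', h1']
    rw [hF] at hz
    apply hz i
    have heq : (fun j : Fin (M + 1) => z (i + (j : ℕ))) = fun j : Fin (M + 1) => pt u N (i + (j : ℕ)) := by
      funext j
      have : ¬ (i + ((j : ℕ) : ℤ) < 0) := by omega
      simp [z, this]
    rw [heq]
    exact hmem
  · -- the window contains no `R`
    let z : ℤ → Sym k := fun t => if t < N then pt u N t else Sym.inc ⟨0, hk⟩
    have hz : z ∈ X k := by
      apply mem_L z 0 ⟨0, hk⟩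
      · intro t ht
        have h1 : t < N := by omega
        simp [z, h1, pt_neg u N t ht]
      · intro t ht
        have h0 : ¬ (t < 0) := by omega
        by_cases h1 : t < N
        · obtain ⟨a, ha⟩ := hu t.toNat
          simp [z, pt, h0, h1, ha]
        · simp [z, h1]
      · intro t ht hR
        exfalso
        have h0 : ¬ (t < 0) := by omega
        by_cases h1 : t < N
        · obtain ⟨a, ha⟩ := hu t.toNat
          simp [z, pt, h0, h1, ha] at hR
        · simp [z, h1] at hR
      · intro n hR
        exfalso
        have h0 : ¬ ((0 : ℤ) + n < 0) := by omega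
        by_cases h1 : ((0 : ℤ) + n) < N
        · obtain ⟨a, ha⟩ := hu ((0 : ℤ) + n).toNat
          simp only [z, h1, if_true, pt, h0, if_false, ha] at hR
          cases hR
        · simp only [z, h1, if_false] at hR
          cases hR
    rw [hF] at hz
    apply hz i
    have heq : (fun j : Fin (M + 1) => z (i + (j : ℕ))) = fun j : Fin (M + 1) => pt u N (i + (j : ℕ)) := by
      funext j
      have hj := j.2
      have : i + ((j : ℕ) : ℤ) < N := by omega
      simp [z, this]
    rw [heq]
    exact hmem

theorem minStep_X {k : ℕ} (hk : 0 < k) : minStep (X k) = 2 ^ k := by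
  apply le_antisymm
  · exact Nat.sInf_le (X_isStep hk)
  · exact le_csInf ⟨_, X_isStep hk⟩ (fun M hM => not_isStep hk M hM)

/-! ### The size of deterministic presentations -/

/-- The states as a finite type. -/
def stEquiv (k : ℕ) : St k ≃ (Fin k ⊕ Fin k × Bool) ⊕ Bool where
  toFun
    | St.q i => Sum.inl (Sum.inl i)
    | St.b i y => Sum.inl (Sum.inr (i, y))
    | St.err => Sum.inr false
    | St.fin => Sum.inr true
  invFun
    | Sum.inl (Sum.inl i) => St.q i
    | Sum.inl (Sum.inr (i, y)) => St.b i y
    | Sum.inr false => St.err
    | Sum.inr true => St.fin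
  left_inv := by intro s; cases s <;> rfl
  right_inv := by
    intro s
    rcases s with (i | ⟨i, y⟩) | (_ | _) <;> rfl

/-- The letters as a finite type. -/
def symEquiv (k : ℕ) : Sym k ≃ Fin k ⊕ Bool where
  toFun
    | Sym.L => Sum.inr false
    | Sym.R => Sum.inr true
    | Sym.inc a => Sum.inl a
  invFun
    | Sum.inr false => Sym.L
    | Sum.inr true => Sym.R
    | Sum.inl a => Sym.inc a
  left_inv := by intro s; cases s <;> rfl
  right_inv := by
    intro s
    rcases s with i | (_ | _) <;> rfl

instance (k : ℕ) : Finite (St k) := Finite.of_equiv _ (stEquiv k).symm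
instance (k : ℕ) : Finite (Sym k) := Finite.of_equiv _ (symEquiv k).symm

theorem card_St (k : ℕ) : Nat.card (St k) = 3 * k + 2 := by
  rw [Nat.card_congr (stEquiv k)]
  simp only [Nat.card_eq_fintype_card, Fintype.card_sum, Fintype.card_prod, Fintype.card_fin,
    Fintype.card_bool]
  ring

/-- The deterministic presentation given by the transition function. -/
def pres (k : ℕ) : Presentation (Sym k) where
  V := St k
  E := {p : (St k × Sym k) × St k // step p.1.1 p.1.2 = some p.2}
  finV := inferInstance
  finE := inferInstance
  src e := e.1.1.1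
  tgt e := e.1.2
  lab e := e.1.1.2

theorem pres_det (k : ℕ) : (pres k).Deterministic := by
  rintro ⟨⟨⟨s, a⟩, t⟩, h⟩ ⟨⟨⟨s', a'⟩, t'⟩, h'⟩ h1 h2
  simp only [pres] at h1 h2
  subst h1 h2
  simp only at h h'
  rw [h] at h'
  simp only [Option.some.injEq] at h'
  subst h'
  rfl

theorem pres_shift (k : ℕ) : (pres k).shift = X k := by
  apply Set.Subset.antisymm
  · rintro x ⟨w, hw, hl⟩
    refine ⟨fun t => (w t).1.1.1, ?_⟩
    intro t
    have h1 : (w t).1.2 = (w (t + 1)).1.1.1 := hw t
    have h2 : (w t).1.1.2 = x t := hl t
    have h3 : step (w t).1.1.1 (w t).1.1.2 = some (w t).1.2 := (w t).2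
    rw [h1, h2] at h3
    exact h3
  · rintro x ⟨s, hs⟩
    exact ⟨fun t => ⟨((s t, x t), s (t + 1)), hs t⟩, fun _ => rfl, fun _ => rfl⟩

theorem sd_le (k : ℕ) : sd (X k) ≤ 3 * k + 2 :=
  Nat.sInf_le ⟨pres k, pres_det k, pres_shift k, card_St k⟩

/-- Any presentation of `X k` has at least `k` vertices. -/
theorem le_card {k : ℕ} (hk : 0 < k) (G : Presentation (Sym k)) (hG : G.shift = X k) :
    k ≤ Nat.card G.V := by
  classical
  obtain ⟨u, hu, hval⟩ := exists_long hk
  have hpow : 0 < 2 ^ k := by positivity
  obtain ⟨N, hN⟩ : ∃ N, N + 1 = 2 ^ k := ⟨2 ^ k - 1, by omega⟩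
  -- the left ray `L^∞ u_0 ... u_{m-1}` ending at time `-1`
  let left : ℕ → ℤ → Sym k := fun m t => if t + m < 0 then Sym.L else u (t + m).toNat
  let S : ℕ → Set G.V := fun m => {v | ∃ w : ℤ → G.E,
    (∀ i : ℤ, i + 1 < 0 → G.tgt (w i) = G.src (w (i + 1))) ∧ G.tgt (w (-1)) = v ∧
      ∀ i : ℤ, i < 0 → G.lab (w i) = left m i}
  have hinj : ∀ m m' : ℕ, m < m' → m' ≤ N → S m ≠ S m' := by
    intro m m' hmm hm' hS
    -- the longer word
    let v : ℕ → Sym k := fun j => if j < m' then u j else u (j - (m' - m))
    have hv : ∀ n, ∃ a, v n = Sym.inc a := by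
      intro n
      by_cases h : n < m'
      · obtain ⟨a, ha⟩ := hu n
        exact ⟨a, by simp [v, h, ha]⟩
      · obtain ⟨a, ha⟩ := hu (n - (m' - m))
        exact ⟨a, by simp [v, h, ha]⟩
    have hmem : pt v (N + (m' - m)) ∈ X k := by
      rw [pt_mem_iff v hv]
      by_contra hcon
      push Not at hcon
      have := valid_short hk v (N + (m' - m)) hcon
      omega
    rw [← hG] at hmem
    obtain ⟨w, hw, hl⟩ := hmem
    have hvS : G.tgt (w (m' - 1)) ∈ S m' := by
      refine ⟨fun i => w (i + m'), ?_, ?_, ?_⟩
      · intro i _
        have := hw (i + m')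
        have hc : i + m' + 1 = i + 1 + m' := by ring
        rw [hc] at this
        exact this
      · have hc : (-1 : ℤ) + m' = m' - 1 := by ring
        simp only [hc]
      · intro i hi
        simp only [hl, left]
        by_cases h0 : i + (m' : ℤ) < 0
        · rw [pt_neg v _ _ h0]; simp [h0]
        · have e : (((i + m').toNat : ℕ) : ℤ) = i + m' := by omega
          have h3 := pt_mid v (N + (m' - m)) (i + m').toNat (by omega)
          rw [e] at h3
          rw [h3]
          have h4 : (i + (m' : ℤ)).toNat < m' := by omega
          simp only [v, h4, h0, if_true, if_false]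
    rw [← hS] at hvS
    obtain ⟨w', hw', hv', hl'⟩ := hvS
    -- splice
    have hbad : pt u N ∈ X k := by
      rw [← hG]
      refine ⟨fun t => if t < m then w' (t - m) else w (t + (m' - m)), ?_, ?_⟩
      · intro t
        by_cases h1 : t + 1 < m
        · have h2 : t < m := by omega
          have := hw' (t - m) (by omega)
          have hc : t - m + 1 = t + 1 - m := by ring
          rw [hc] at this
          simp only [h1, h2, if_true]
          exact this
        · by_cases h2 : t < m
          · have h3 : t = m - 1 := by omega
            subst h3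
            have hc1 : (m : ℤ) - 1 - m = -1 := by ring
            have hc2 : (m : ℤ) - 1 + 1 + (m' - m) = m' := by ring
            have := hw (m' - 1)
            rw [sub_add_cancel] at this
            simp only [h1, h2, if_true, if_false, hc1, hc2]
            rw [hv']
            exact this
          · have := hw (t + (m' - m))
            have hc : t + (m' - m) + 1 = t + 1 + ((m' : ℤ) - m) := by ring
            rw [hc] at this
            simp only [h1, h2, if_false]
            exact this
      · intro t
        by_cases h2 : t < m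
        · simp only [h2, if_true]
          rw [hl' _ (by omega)]
          simp only [left, sub_add_cancel]
          by_cases h0 : t < 0
          · rw [pt_neg u _ _ h0]; simp [h0]
          · have e : ((t.toNat : ℕ) : ℤ) = t := by omega
            have h3 := pt_mid u N t.toNat (by omega)
            rw [e] at h3
            rw [h3]
            simp [h0]
        · simp only [h2, if_false]
          rw [hl]
          by_cases h5 : t < N
          · have e : ((t.toNat : ℕ) : ℤ) = t := by omega
            have h3 := pt_mid u N t.toNat (by omega)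
            rw [e] at h3
            rw [h3]
            have e' : (((t + (m' - m)).toNat : ℕ) : ℤ) = t + (m' - m) := by omega
            have h3' := pt_mid v (N + (m' - m)) (t + (m' - m)).toNat (by omega)
            rw [e'] at h3'
            rw [h3']
            have h6 : ¬ ((t + ((m' : ℤ) - m)).toNat < m') := by omega
            have h7 : (t + ((m' : ℤ) - m)).toNat - (m' - m) = t.toNat := by omega
            simp only [v, h6, if_false, h7]
          · rw [pt_right u N t (by omega), pt_right v _ _ (by omega)]
    rw [pt_mem_iff u hu] at hbad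
    obtain ⟨i, hi⟩ := hbad
    exact hval N (by omega) i hi
  -- counting
  have hfinV := G.finV
  have hinj2 : Function.Injective (fun m : Fin (N + 1) => S m) := by
    intro m m' h
    rcases lt_trichotomy (m : ℕ) m' with h1 | h1 | h1
    · exact absurd h (hinj m m' h1 (by omega))
    · exact Fin.ext h1
    · exact absurd h.symm (hinj m' m h1 (by omega))
  have hcard := Nat.card_le_card_of_injective _ hinj2
  rw [Nat.card_eq_fintype_card, Fintype.card_fin, hN] at hcard
  have : Nat.card (Set G.V) = 2 ^ Nat.card G.V := by
    have := Fintype.ofFinite G.V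
    rw [Nat.card_eq_fintype_card, Nat.card_eq_fintype_card, Fintype.card_set]
  rw [this] at hcard
  exact (Nat.pow_le_pow_iff_right (by norm_num)).mp hcard

theorem le_sd {k : ℕ} (hk : 0 < k) : k ≤ sd (X k) := by
  have hne : {n | ∃ G : Presentation (Sym k), G.Deterministic ∧ G.shift = X k ∧
      Nat.card G.V = n}.Nonempty := ⟨3 * k + 2, pres k, pres_det k, pres_shift k, card_St k⟩
  apply le_csInf hne
  rintro n ⟨G, _, hG, rfl⟩
  exact le_card hk G hG

/-- **Q1, positive answer.** There are a constant `c > 0` and shifts of finite type `Y 0, Y 1, ...`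
over finite alphabets with `s_d (Y k) → ∞` such that the minimum step of `Y k` is at least
`2 ^ (c * s_d (Y k))` for every `k`. -/
theorem result : ∃ c : ℝ, 0 < c ∧ ∃ (A : ℕ → Type) (_ : ∀ k, Finite (A k))
    (Y : ∀ k, Set (ℤ → A k)), (∀ k, IsSFT (Y k)) ∧
      Tendsto (fun k => sd (Y k)) atTop atTop ∧
      ∀ k, (2 : ℝ) ^ (c * (sd (Y k) : ℝ)) ≤ (minStep (Y k) : ℝ) := by
  refine ⟨1 / 5, by norm_num, fun k => Sym (k + 1), fun k => inferInstance,
    fun k => X (k + 1), fun k => ⟨_, X_isStep (Nat.succ_pos k)⟩, ?_, ?_⟩
  · apply tendsto_atTop_mono (f := fun k : ℕ => k)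
    · intro k
      exact le_trans (Nat.le_succ k) (le_sd (Nat.succ_pos k))
    · exact tendsto_id
  · intro k
    rw [minStep_X (Nat.succ_pos k)]
    push_cast
    rw [← Real.rpow_natCast]
    apply Real.rpow_le_rpow_of_exponent_le (by norm_num)
    have h := sd_le (k + 1)
    have h' : (sd (X (k + 1)) : ℝ) ≤ 3 * ((k : ℝ) + 1) + 2 := by exact_mod_cast h
    push_cast
    have hk : (0 : ℝ) ≤ k := Nat.cast_nonneg k
    linarith

end Pool.Agent.Results.MP_bb9d96_lc.Tight
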